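import Pool.Agent.H70.PT.Targets

set_option autoImplicit false

open List Finset Pool.Agent.H68.TG Pool.Agent.H75.RW Pool.Agent.H70.PT

namespace Pool.Agent.H13.PT

theorem SS_const (r l : ℕ) (C : ℝ) : Pool.Agent.H70.PT.SS r l (fun _ _ => C) = ((4 : ℝ) ^ l) ^ r * C := by
  unfold Pool.Agent.H70.PT.SS
  rw [Finset.sum_const, Finset.sum_const, Finset.card_univ, Fintype.card_fun, Fintype.card_fin,
    Fintype.card_fin, nsmul_eq_mul, nsmul_eq_mul]
  push_cast
  rw [← mul_assoc, ← mul_pow, ← mul_pow]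
  norm_num

theorem pf_MOM (HIB : T_HIB) (TOA : T_TOA) : T_MOM := by
  intro r n m i w h
  obtain ⟨l, rfl⟩ := Nat.exists_eq_add_of_le h
  have h4 : ((4 : ℝ) ^ (n + l)) ^ r = ((4 : ℝ) ^ l) ^ r * (4 ^ r) ^ n := by
    rw [← pow_mul, ← pow_mul, ← pow_mul, ← pow_add]
    congr 1
    ring
  constructor
  · have h1 := HIB r n l (fun P _ _ _ => w ^ P i)
    simp only at h1
    rw [h1]
    have h2 : (fun _ _ : Fin r → ℕ => tot (fun P _ => w ^ P i) n false (fun _ => 0) (fun _ => 0)) =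
        fun _ _ => (4 ^ r * ((1 + w) / 2)) ^ n := by
      funext _ _
      rw [(TOA r n false (fun _ => 0) (fun _ => 0) i w).1, pow_zero, mul_one]
    rw [h2, SS_const, h4, mul_pow]
    ring
  · have h1 := HIB r n l (fun _ Q _ _ => w ^ Q i)
    simp only at h1
    rw [h1]
    have h2 : (fun _ _ : Fin r → ℕ => tot (fun _ Q => w ^ Q i) n false (fun _ => 0) (fun _ => 0)) =
        fun _ _ => (4 ^ r * ((1 + w) / 2)) ^ n := by
      funext _ _
      rw [(TOA r n false (fun _ => 0) (fun _ => 0) i w).2, pow_zero, mul_one]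
    rw [h2, SS_const, h4, mul_pow]
    ring

end Pool.Agent.H13.PT
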