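import Pool.Agent.H75.PT.Targets

/-!
# Row TAI of the board bwp_modules

The factor of a block and its tail.
-/

set_option autoImplicit false

open List Finset Pool.Agent.H68.TG Pool.Agent.H75.RW Pool.Agent.H70.PT

namespace Pool.Agent.H13.PT

open Pool.Agent.H75.PT

theorem bm_pow (n : ℕ) (x : ℝ) : bm n (fun j => x ^ j) = ((1 + x) / 2) ^ n := by
  have h := add_pow x 1 n
  unfold bm
  rw [div_pow, add_comm 1 x, h]
  congr 1
  refine Finset.sum_congr rfl fun j _ => ?_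
  rw [one_pow, mul_one, mul_comm]

theorem bm_le {n : ℕ} {U W : ℕ → ℝ} (h : ∀ j, U j ≤ W j) : bm n U ≤ bm n W := by
  unfold bm
  refine div_le_div_of_nonneg_right ?_ (by positivity)
  exact Finset.sum_le_sum fun j _ => mul_le_mul_of_nonneg_left (h j) (Nat.cast_nonneg _)

theorem bm_add (n : ℕ) (U W : ℕ → ℝ) : bm n U + bm n W = bm n (fun j => U j + W j) := by
  unfold bm
  rw [← add_div, ← Finset.sum_add_distrib]
  congr 1
  refine Finset.sum_congr rfl fun j _ => ?_
  ring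

theorem bm_mul (n : ℕ) (c : ℝ) (U : ℕ → ℝ) : bm n (fun j => c * U j) = c * bm n U := by
  unfold bm
  rw [mul_div_assoc', Finset.mul_sum]
  congr 1
  refine Finset.sum_congr rfl fun j _ => ?_
  ring

theorem bm_nonneg {n : ℕ} {U : ℕ → ℝ} (h : ∀ j, 0 ≤ U j) : 0 ≤ bm n U := by
  unfold bm
  refine div_nonneg (Finset.sum_nonneg fun j _ => ?_) (by positivity)
  exact mul_nonneg (Nat.cast_nonneg _) (h j)

theorem cu_nonneg (t : ℕ) (A : ℝ) (j : ℕ) : 0 ≤ cu t A j := by
  unfold cu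
  split_ifs
  · positivity
  · exact le_rfl

theorem cw_nonneg (t : ℕ) (A : ℝ) (j : ℕ) : 0 ≤ cw t A j := by
  unfold cw
  split_ifs
  · exact le_rfl
  · positivity

theorem pf_TAI : Pool.Agent.H75.PT.T_TAI := by
  intro t A ρ hA hρ
  have h1 : bm t (fun j => (3 : ℝ) ^ j) = 2 ^ t := by
    rw [bm_pow]
    norm_num
  have h2 : bm t (cu t A) + bm t (cw t A) = 1 := by
    rw [bm_add]
    have : (fun j => cu t A j + cw t A j) = fun j => (1 / 2 ^ t : ℝ) * 3 ^ j := by
      funext j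
      unfold cu cw
      split_ifs <;> ring
    rw [this, bm_mul, h1]
    field_simp
  have h3 : 0 ≤ bm t (cu t A) := bm_nonneg (cu_nonneg t A)
  have h4 : 0 ≤ bm t (cw t A) := bm_nonneg (cw_nonneg t A)
  refine ⟨h1, h2, h3, h4, ?_, ?_⟩
  · have h5 : bm t (fun j => cu t A j ^ 2) ≤ bm t (fun j => A * cu t A j) := by
      refine bm_le fun j => ?_
      rw [pow_two]
      refine mul_le_mul_of_nonneg_right ?_ (cu_nonneg t A j)
      unfold cu
      split_ifs with h
      · exact h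
      · exact hA.le
    rw [bm_mul] at h5
    refine h5.trans ?_
    calc A * bm t (cu t A) ≤ A * 1 := mul_le_mul_of_nonneg_left (by linarith) hA.le
      _ = A := mul_one A
  · have h5 : bm t (cw t A) ≤
        bm t (fun j => (1 / ((2 ^ t : ℝ) ^ (1 + ρ) * A ^ ρ)) * ((3 : ℝ) ^ (1 + ρ)) ^ j) := by
      refine bm_le fun j => ?_
      have hx : (0 : ℝ) < 3 ^ j / 2 ^ t := by positivity
      have h6 : (1 / ((2 ^ t : ℝ) ^ (1 + ρ) * A ^ ρ)) * ((3 : ℝ) ^ (1 + ρ)) ^ j =
          (3 ^ j / 2 ^ t : ℝ) * ((3 ^ j / 2 ^ t : ℝ) / A) ^ ρ := by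
        rw [Real.div_rpow hx.le hA.le, Real.div_rpow (by positivity) (by positivity),
          Real.rpow_add (by positivity : (0 : ℝ) < 2 ^ t),
          Real.rpow_add (by norm_num : (0 : ℝ) < 3), Real.rpow_one, Real.rpow_one,
          mul_pow]
        have h7 : ((3 : ℝ) ^ ρ) ^ j = ((3 : ℝ) ^ j) ^ ρ := by
          rw [← Real.rpow_natCast, ← Real.rpow_natCast, ← Real.rpow_mul (by norm_num),
            ← Real.rpow_mul (by norm_num), mul_comm]
        rw [h7]
        have h8 : (0 : ℝ) < (2 ^ t : ℝ) ^ ρ := by positivity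
        have h9 : (0 : ℝ) < A ^ ρ := by positivity
        field_simp
      rw [h6]
      unfold cw
      split_ifs with h
      · positivity
      · rw [not_le] at h
        have h7 : 1 ≤ ((3 ^ j / 2 ^ t : ℝ) / A) ^ ρ :=
          Real.one_le_rpow ((one_le_div hA).2 h.le) hρ.le
        calc (3 ^ j / 2 ^ t : ℝ) = (3 ^ j / 2 ^ t : ℝ) * 1 := (mul_one _).symm
          _ ≤ _ := mul_le_mul_of_nonneg_left h7 hx.le
    refine h5.trans (le_of_eq ?_)
    rw [bm_mul, bm_pow]
    have h6 : ((1 / 2 : ℝ) ^ (1 + ρ) + (3 / 2) ^ (1 + ρ)) / 2 =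
        ((1 + (3 : ℝ) ^ (1 + ρ)) / 2) / (2 : ℝ) ^ (1 + ρ) := by
      rw [Real.div_rpow (by norm_num) (by norm_num), Real.div_rpow (by norm_num) (by norm_num),
        Real.one_rpow]
      have : (0 : ℝ) < (2 : ℝ) ^ (1 + ρ) := by positivity
      field_simp
    have h7 : (2 ^ t : ℝ) ^ (1 + ρ) = ((2 : ℝ) ^ (1 + ρ)) ^ t := by
      rw [← Real.rpow_natCast, ← Real.rpow_natCast, ← Real.rpow_mul (by norm_num),
        ← Real.rpow_mul (by norm_num), mul_comm]
    rw [h6, h7, div_pow _ ((2 : ℝ) ^ (1 + ρ))]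
    have h8 : (0 : ℝ) < ((2 : ℝ) ^ (1 + ρ)) ^ t := by positivity
    have h9 : (0 : ℝ) < A ^ ρ := by positivity
    field_simp

end Pool.Agent.H13.PT
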